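import Pool.Agent.W323.SC.Stm

set_option autoImplicit false
open Finset
open scoped Classical

namespace Pool.Agent.W266.SC

open Pool.Agent.W323.SC

lemma one_le_prod' {α : Type} (z : α → ℝ) (hz : ∀ p, 0 ≤ z p) (S : Finset α) :
    1 ≤ ∏ p ∈ S, (1 + z p) := by
  induction S using Finset.induction_on with
  | empty => simp
  | insert a s ha ih =>
    rw [Finset.prod_insert ha]
    have := hz a
    nlinarith

lemma yc_nonneg {α ι κ : Type} [Fintype α] (T : Finset α) (A : α → ι) (B : α → κ) (z : α → ℝ)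
    (hz : ∀ p, 0 ≤ z p) (i : ι) (j : κ) : 0 ≤ yc T A B z i j := by
  unfold yc
  have := one_le_prod' z hz (T.filter (fun p => A p = i ∧ B p = j))
  linarith

lemma XS_nonneg {α ι : Type} [Fintype α] [Fintype ι] (T : Finset α) (A : α → ι) (z : α → ℝ)
    (hz : ∀ p, 0 ≤ z p) : 0 ≤ XS T A z := by
  unfold XS
  refine Finset.sum_nonneg (fun i _ => ?_)
  have := one_le_prod' z hz (T.filter (fun p => A p = i))
  linarith

lemma SS_nonneg {α ι κ : Type} [Fintype α] [Fintype ι] [Fintype κ] (T : Finset α) (A : α → ι)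
    (B : α → κ) (z : α → ℝ) (hz : ∀ p, 0 ≤ z p) : 0 ≤ SS T A B z := by
  unfold SS
  exact Finset.sum_nonneg (fun i _ => Finset.sum_nonneg (fun j _ => yc_nonneg T A B z hz i j))

lemma QS_nonneg {α ι κ : Type} [Fintype α] [Fintype ι] [Fintype κ] (T : Finset α) (A : α → ι)
    (B : α → κ) (z : α → ℝ) (hz : ∀ p, 0 ≤ z p) : 0 ≤ QS T A B z := by
  unfold QS
  refine div_nonneg ?_ (by norm_num)
  refine Finset.sum_nonneg (fun i _ => Finset.sum_nonneg (fun j _ => Finset.sum_nonneg
    (fun i' _ => Finset.sum_nonneg (fun j' _ => ?_))))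
  split_ifs
  · exact mul_nonneg (yc_nonneg T A B z hz i j) (yc_nonneg T A B z hz i' j')
  · exact le_refl _

lemma total {α : Type} (z : α → ℝ) (S : Finset α) :
    ∑ X ∈ S.powerset, w z X = ∏ p ∈ S, (1 + z p) := by
  unfold w
  rw [Finset.prod_one_add]

/-- splitting a total sum -/
lemma split {α : Type} (z : α → ℝ) (S : Finset α) (q : Finset α → Prop) :
    ∑ X ∈ S.powerset.filter (fun X => q X), w z X =
      (∏ p ∈ S, (1 + z p)) - ∑ X ∈ S.powerset.filter (fun X => ¬ q X), w z X := by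
  rw [← total z S, ← Finset.sum_filter_add_sum_filter_not S.powerset (fun X => q X)]
  ring

theorem mi : S_Mul → S_Row → S_Low → S_Fin → S_M0 → S_M1 → S_M2 → S_MI := by
  intro hMul hRow hLow hFin hM0 hM1 hM2 n M hE hr e f hef hI z hz0
  have hz : ∀ p, 0 ≤ z p := fun p => le_of_lt (hz0 p)
  have hI' : M.Indep {f, e} := by rw [Set.pair_comm]; exact hI
  obtain ⟨hU, hD, hPL, hPL', hK, hLL, hTT⟩ := hM0 n M hE e f hef hI
  have hM1' := hM1 n M hE hr e f hef hI
  have hM1f := hM1 n M hE hr f e hef.symm hI'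
  have hM2' := hM2 n M hE hr e f hef hI
  have hM2f := hM2 n M hE hr f e hef.symm hI'
  rw [← hLL, ← hTT] at hM1f hM2f
  set L := LL M e f with hLdef
  set T := TT M e f with hTdef
  set P := PP M e with hPdef
  set P' := PP M f with hP'def
  set K := clF M ∅ with hKdef
  set A := lab M e with hAdef
  set B := lab M f with hBdef
  have htot : ∏ p ∈ L ∪ T, (1 + z p) = (∏ p ∈ L, (1 + z p)) * ∏ p ∈ T, (1 + z p) :=
    Finset.prod_union hD
  -- AA
  have hAA : AA M z e f = (∏ p ∈ L, (1 + z p)) * (∏ p ∈ T, (1 + z p)) - ∏ p ∈ L, (1 + z p) := by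
    unfold AA
    rw [← hU]
    have h1 := split z (L ∪ T) (fun X : Finset (Fin n) =>
      M.Spanning ((insert e (insert f X) : Finset (Fin n)) : Set (Fin n)))
    rw [htot] at h1
    have h2 : ∑ X ∈ (L ∪ T).powerset.filter (fun X : Finset (Fin n) =>
      ¬ M.Spanning ((insert e (insert f X) : Finset (Fin n)) : Set (Fin n))), w z X
        = ∏ p ∈ L, (1 + z p) := by
      rw [← total z L]
      refine Finset.sum_congr ?_ (fun _ _ => rfl)
      ext X
      simp only [Finset.mem_filter, Finset.mem_powerset]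
      constructor
      · rintro ⟨hX, hs⟩
        exact ((hM1' X hX).1).1 hs
      · intro hX
        have hX' : X ⊆ L ∪ T := hX.trans Finset.subset_union_left
        exact ⟨hX', ((hM1' X hX').1).2 hX⟩
    rw [h2] at h1
    convert h1 using 1
  -- BB e f
  have hBB : BB M z e f = (∏ p ∈ L, (1 + z p)) * (∏ p ∈ T, (1 + z p)) -
      ((∏ p ∈ L, (1 + z p)) + (∏ p ∈ P, (1 + z p)) * XS T A z) := by
    unfold BB
    rw [← hU]
    have h1 := split z (L ∪ T) (fun X : Finset (Fin n) =>
      M.Spanning ((insert e X : Finset (Fin n)) : Set (Fin n)))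
    rw [htot] at h1
    have hrow := hRow (Fin n) (Finset (Fin n)) L T P hD hPL A z
    have h2 : ∑ X ∈ (L ∪ T).powerset.filter (fun X : Finset (Fin n) =>
      ¬ M.Spanning ((insert e X : Finset (Fin n)) : Set (Fin n))), w z X
        = (∏ p ∈ L, (1 + z p)) + (∏ p ∈ P, (1 + z p)) * XS T A z := by
      rw [← hrow]
      refine Finset.sum_congr ?_ (fun _ _ => rfl)
      ext X
      simp only [Finset.mem_filter, Finset.mem_powerset]
      constructor
      · rintro ⟨hX, hs⟩
        refine ⟨by convert hX, ?_⟩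
        have := ((hM1' X hX).2).1 hs
        convert this
      · rintro ⟨hX, hs⟩
        have hX' : X ⊆ L ∪ T := by convert hX
        refine ⟨hX', ((hM1' X hX').2).2 ?_⟩
        convert hs
    rw [h2] at h1
    convert h1 using 1
  -- BB f e
  have hBBf : BB M z f e = (∏ p ∈ L, (1 + z p)) * (∏ p ∈ T, (1 + z p)) -
      ((∏ p ∈ L, (1 + z p)) + (∏ p ∈ P', (1 + z p)) * XS T B z) := by
    unfold BB
    rw [Finset.pair_comm f e, ← hU]
    have h1 := split z (L ∪ T) (fun X : Finset (Fin n) =>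
      M.Spanning ((insert f X : Finset (Fin n)) : Set (Fin n)))
    rw [htot] at h1
    have hrow := hRow (Fin n) (Finset (Fin n)) L T P' hD hPL' B z
    have h2 : ∑ X ∈ (L ∪ T).powerset.filter (fun X : Finset (Fin n) =>
      ¬ M.Spanning ((insert f X : Finset (Fin n)) : Set (Fin n))), w z X
        = (∏ p ∈ L, (1 + z p)) + (∏ p ∈ P', (1 + z p)) * XS T B z := by
      rw [← hrow]
      refine Finset.sum_congr ?_ (fun _ _ => rfl)
      ext X
      simp only [Finset.mem_filter, Finset.mem_powerset]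
      constructor
      · rintro ⟨hX, hs⟩
        refine ⟨by convert hX, ?_⟩
        have := ((hM1f X hX).2).1 hs
        convert this
      · rintro ⟨hX, hs⟩
        have hX' : X ⊆ L ∪ T := by convert hX
        refine ⟨hX', ((hM1f X hX').2).2 ?_⟩
        convert hs
    rw [h2] at h1
    convert h1 using 1
  -- DD
  have hDD : DD M z e f = (∏ p ∈ L, (1 + z p)) * (∏ p ∈ T, (1 + z p)) -
      ∑ X ∈ (L ∪ T).powerset.filter (fun X : Finset (Fin n) => ¬ M.Spanning (X : Set (Fin n))),
        w z X := by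
    unfold DD
    rw [← hU]
    have h1 := split z (L ∪ T) (fun X : Finset (Fin n) => M.Spanning (X : Set (Fin n)))
    rw [htot] at h1
    convert h1 using 1
  have hlow := hLow (Fin n) (Finset (Fin n)) (Finset (Fin n)) L T P P' K hD hPL hPL'
    (by convert hK) A B z hz (fun X => ¬ M.Spanning (X : Set (Fin n)))
    (by
      intro X hX
      exact (hM2' X (hX.trans Finset.subset_union_left)).1 hX)
    (by
      intro X hX h1 h2
      exact (hM2' X (by convert hX)).2.1 (by convert h1) (by convert h2))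
    (by
      intro X hX h1 h2
      exact (hM2f X (by convert hX)).2.1 (by convert h1) (by convert h2))
    (by
      intro X hX h1 p hp q hq hu
      refine (hM2' X (by convert hX)).2.2.1 (by convert h1) p (by convert hp) q (by convert hq) ?_
      intro u hu'
      exact hu u (by convert hu'))
    (by
      intro X hX g hg h1 h2 h3
      exact (hM2' X (by convert hX)).2.2.2 g hg (by convert h1) (by convert h2) (by convert h3))
  have hlow' : (∏ p ∈ L, (1 + z p)) + (∏ p ∈ P, (1 + z p)) * XS T A z +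
      (∏ p ∈ P', (1 + z p)) * XS T B z +
      (∏ p ∈ K, (1 + z p)) * (QS T A B z - SS T A B z + SS T A B z * ∑ g ∈ L \ (P ∪ P'), z g) ≤
      ∑ X ∈ (L ∪ T).powerset.filter (fun X : Finset (Fin n) => ¬ M.Spanning (X : Set (Fin n))),
        w z X := by
    convert hlow
  -- products
  have hR : (∏ p ∈ L \ (P ∪ P'), (1 + z p)) * (∏ p ∈ P ∪ P', (1 + z p)) = ∏ p ∈ L, (1 + z p) :=
    Finset.prod_sdiff (Finset.union_subset hPL hPL')
  have hPP : (∏ p ∈ P ∪ P', (1 + z p)) * (∏ p ∈ P ∩ P', (1 + z p)) =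
      (∏ p ∈ P, (1 + z p)) * ∏ p ∈ P', (1 + z p) := Finset.prod_union_inter
  rw [hK] at hPP
  have hlk : (∏ p ∈ L, (1 + z p)) * (∏ p ∈ K, (1 + z p)) =
      (∏ p ∈ L \ (P ∪ P'), (1 + z p)) * ((∏ p ∈ P, (1 + z p)) * ∏ p ∈ P', (1 + z p)) := by
    rw [← hR, ← hPP]; ring
  have hx := one_le_prod' z hz P
  have hx' := one_le_prod' z hz P'
  have hR1 := one_le_prod' z hz (L \ (P ∪ P'))
  have hR2 : ∏ p ∈ L \ (P ∪ P'), (1 + z p) ≤ Real.exp (∑ g ∈ L \ (P ∪ P'), z g) := by
    rw [Real.exp_sum]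
    refine Finset.prod_le_prod (fun i _ => by have := hz i; linarith) (fun i _ => ?_)
    have := Real.add_one_le_exp (z i)
    linarith
  have hxx : 0 ≤ (∏ p ∈ P, (1 + z p)) * ∏ p ∈ P', (1 + z p) := by positivity
  have hmul := hMul (Fin n) (Finset (Fin n)) (Finset (Fin n)) T A B z hz
  have hfin := hFin (∏ p ∈ L, (1 + z p)) (∏ p ∈ P, (1 + z p)) (∏ p ∈ P', (1 + z p))
    (∏ p ∈ K, (1 + z p)) (∏ p ∈ T, (1 + z p)) (∑ g ∈ L \ (P ∪ P'), z g) (SS T A B z) (QS T A B z)
    (XS T A z) (XS T B z)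
    (∑ X ∈ (L ∪ T).powerset.filter (fun X : Finset (Fin n) => ¬ M.Spanning (X : Set (Fin n))),
        w z X)
    (one_le_prod' z hz K) hx hx' (one_le_prod' z hz T)
    (Finset.sum_nonneg (fun i _ => hz i)) (SS_nonneg T A B z hz) (QS_nonneg T A B z hz)
    (XS_nonneg T A z hz) (XS_nonneg T B z hz)
    (by rw [hlk, mul_comm]; exact mul_le_mul_of_nonneg_left hR2 hxx)
    (by rw [hlk]; nlinarith) hmul hlow'
  rw [hAA, hBB, hBBf, hDD]
  exact hfin

end Pool.Agent.W266.SC
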